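import Mathlib

set_option autoImplicit false

/-!
# Integers equal to their number of proper-divisor subset sums

`492 = 4 · 3 · 41` has proper divisors `1, 2, 3, 4, 6, 12, 41, 82, 123, 164, 246` with sum `684`;
their nonempty subset sums are exactly `492` distinct integers, and `492` is not perfect.
-/

namespace Pool.Agent.Results.MP_9bce75_nt.Counterexample492

open Finset

/-- The number of distinct positive integers that are sums of the elements of a nonempty set of
proper divisors of `n`. -/
def a (n : ℕ) : ℕ :=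
  ((n.properDivisors.powerset.filter (fun S => S.Nonempty)).image (fun S => ∑ d ∈ S, d)).card

/-- the set of subset sums of a list -/
def sums (l : List ℕ) : Finset ℕ := l.foldr (fun d T => T ∪ T.image (d + ·)) {0}

theorem mem_sums (l : List ℕ) (hl : l.Nodup) (x : ℕ) :
    x ∈ sums l ↔ ∃ S : Finset ℕ, S ⊆ l.toFinset ∧ ∑ d ∈ S, d = x := by
  induction l generalizing x with
  | nil =>
    simp only [sums, List.foldr_nil, mem_singleton, List.toFinset_nil, subset_empty]
    constructor
    · rintro rfl; exact ⟨∅, rfl, by simp⟩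
    · rintro ⟨S, rfl, h⟩; simpa using h.symm
  | cons d l ih =>
    rw [List.nodup_cons] at hl
    have e : sums (d :: l) = sums l ∪ (sums l).image (d + ·) := rfl
    rw [e, mem_union, mem_image, ih hl.2]
    constructor
    · rintro (⟨S, h1, h2⟩ | ⟨y, hy, rfl⟩)
      · exact ⟨S, h1.trans (by intro z hz; simp at hz ⊢; exact Or.inr hz), h2⟩
      · obtain ⟨S, h1, h2⟩ := (ih hl.2 y).1 hy
        have hd : d ∉ S := fun h => hl.1 (by simpa using h1 h)
        refine ⟨insert d S, ?_, ?_⟩
        · intro z hz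
          rw [mem_insert] at hz
          rcases hz with rfl | hz
          · simp
          · have := h1 hz
            simp at this ⊢; exact Or.inr this
        · rw [sum_insert hd, h2]
    · rintro ⟨S, h1, h2⟩
      by_cases hd : d ∈ S
      · right
        refine ⟨∑ z ∈ S.erase d, z, (ih hl.2 _).2 ⟨S.erase d, ?_, rfl⟩, ?_⟩
        · intro z hz
          rw [mem_erase] at hz
          have := h1 hz.2
          simp at this ⊢
          tauto
        · rw [← h2]; exact add_sum_erase S (fun z => z) hd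
      · left
        refine ⟨S, ?_, h2⟩
        intro z hz
        have := h1 hz
        simp at this ⊢
        rcases this with rfl | h
        · exact absurd hz hd
        · exact h

theorem a_eq (n : ℕ) (l : List ℕ) (hl : l.Nodup) (h : n.properDivisors = l.toFinset) :
    a n = ((sums l).erase 0).card := by
  unfold a
  congr 1
  ext x
  rw [mem_erase, mem_sums l hl, mem_image]
  constructor
  · rintro ⟨S, hS, rfl⟩
    rw [mem_filter, mem_powerset] at hS
    obtain ⟨h1, d, hd⟩ := hS
    refine ⟨?_, S, h ▸ h1, rfl⟩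
    have h2 : 0 < d := Nat.pos_of_mem_properDivisors (h1 hd)
    have h3 : d ≤ ∑ z ∈ S, z := single_le_sum (f := fun z => z) (fun _ _ => Nat.zero_le _) hd
    omega
  · rintro ⟨h0, S, h1, rfl⟩
    refine ⟨S, ?_, rfl⟩
    rw [mem_filter, mem_powerset, h]
    refine ⟨h1, ?_⟩
    by_contra hne
    rw [not_nonempty_iff_eq_empty] at hne
    rw [hne] at h0
    simp at h0

theorem divisors_492 : (492 : ℕ).properDivisors =
    [1, 2, 3, 4, 6, 12, 41, 82, 123, 164, 246].toFinset := by decide +kernel

theorem mem_sums_append (l m : List ℕ) (x : ℕ) :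
    x ∈ sums (l ++ m) ↔ ∃ y ∈ sums l, ∃ z ∈ sums m, y + z = x := by
  induction l generalizing x with
  | nil => simp [sums]
  | cons d l ih =>
    have e1 : sums (d :: l ++ m) = sums (l ++ m) ∪ (sums (l ++ m)).image (d + ·) := rfl
    have e2 : sums (d :: l) = sums l ∪ (sums l).image (d + ·) := rfl
    rw [e1, e2]
    simp only [mem_union, mem_image, ih]
    constructor
    · rintro (⟨y, hy, z, hz, rfl⟩ | ⟨w, ⟨y, hy, z, hz, rfl⟩, rfl⟩)
      · exact ⟨y, Or.inl hy, z, hz, rfl⟩
      · exact ⟨d + y, Or.inr ⟨y, hy, rfl⟩, z, hz, by ring⟩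
    · rintro ⟨y, hy | ⟨w, hw, rfl⟩, z, hz, rfl⟩
      · exact Or.inl ⟨y, hy, z, hz, rfl⟩
      · exact Or.inr ⟨w + z, ⟨w, hw, z, hz, rfl⟩, by ring⟩

theorem card_492 : ((sums [1, 2, 3, 4, 6, 12, 41, 82, 123, 164, 246]).erase 0).card = 492 := by
  have h1 : sums [1, 2, 3, 4, 6, 12] = range 29 := by decide +kernel
  have h2 : sums [41, 82, 123, 164, 246] = (range 17).image (41 * ·) := by decide +kernel
  have h3 : sums [1, 2, 3, 4, 6, 12, 41, 82, 123, 164, 246] =
      (range 29 ×ˢ range 17).image (fun p => p.1 + 41 * p.2) := by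
    ext x
    rw [show [1, 2, 3, 4, 6, 12, 41, 82, 123, 164, 246] =
      [1, 2, 3, 4, 6, 12] ++ [41, 82, 123, 164, 246] from rfl, mem_sums_append, h1, h2]
    simp only [mem_image, mem_product, Prod.exists]
    constructor
    · rintro ⟨y, hy, _, ⟨i, hi, rfl⟩, rfl⟩
      exact ⟨y, i, ⟨hy, hi⟩, rfl⟩
    · rintro ⟨y, i, ⟨hy, hi⟩, rfl⟩
      exact ⟨y, hy, _, ⟨i, hi, rfl⟩, rfl⟩
  rw [h3, card_erase_of_mem, card_image_of_injOn, card_product, card_range, card_range]
  · rintro ⟨y, i⟩ hy ⟨y', i'⟩ hy' h
    simp only [coe_product, coe_range, Set.mem_prod, Set.mem_Iio] at hy hy'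
    simp only at h
    rw [Prod.mk.injEq]
    omega
  · rw [mem_image]
    exact ⟨(0, 0), by simp, rfl⟩

/-- `a (492) = 492` although `492` is not perfect. -/
theorem result : a 492 = 492 ∧ ¬ Nat.Perfect 492 ∧
    ∃ n : ℕ, 0 < n ∧ a n = n ∧ ¬ (Even n ∧ Nat.Perfect n) := by
  have h1 : a 492 = 492 := by
    rw [a_eq 492 _ (by decide) divisors_492, card_492]
  have h2 : ¬ Nat.Perfect 492 := by
    rw [Nat.perfect_iff_sum_properDivisors (by norm_num), divisors_492]
    decide
  exact ⟨h1, h2, 492, by norm_num, h1, fun h => h2 h.2⟩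

end Pool.Agent.Results.MP_9bce75_nt.Counterexample492
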